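import Pool.Agent.Helper99.WP.GoalsW

/-!
# Packet WP CON (project of helper99, MP_f41a60_pr)
-/

set_option autoImplicit false

namespace Pool.Agent.Helper88.WP

open Pool.Agent.Helper99.WP Pool.Agent.Helper99.ERW

lemma eq_of_acyc {V : Type} [DecidableEq V] {ξ : V → ℕ → Option V} {n s : V → ℕ}
    (h : Acyc (top ξ n)) (hr : Relation.ReflTransGen (Step ξ) n s) : n = s := by
  rcases Relation.ReflTransGen.cases_head hr with h1 | ⟨m, ⟨C, hC, _⟩, _⟩
  · exact h1
  · exact absurd hC (h C)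

theorem CON (hDIA : DIA_stmt) : CON_stmt := by
  intro V _ ξ n m
  have h1 : IsTerm ξ n → Reach ξ 0 m → Reach ξ m n := by
    intro hn hm
    obtain ⟨s, hs1, hs2⟩ := Relation.church_rosser (fun a b c hab hac => hDIA V ξ a b c hab hac)
      hn.1 hm
    have h2 := eq_of_acyc hn.2 hs1
    rw [h2]
    exact hs2
  refine ⟨h1, ?_⟩
  intro hn hm
  exact (eq_of_acyc hm.2 (h1 hn hm.1)).symm

end Pool.Agent.Helper88.WP
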